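import Mathlib
import Pool.Agent.R664.EhrHowson

/-!
# MP_9a323a_al, Q1 and Q2

The free Ehresmann monoid `FE X` is weakly right coherent and weakly left coherent, for every
set `X` (of any cardinality).

`Ehresmann` (the variety) and `FE X` (terms modulo the equational theory; it is the free algebra,
see `Pool.Agent.R664.Ehr.FE.free`) are defined in `Pool/Agent/R664/EhrBasic.lean`.
-/

namespace Pool.Agent.Results.MP_9a323a_al.WeaklyCoherent

open Pool.Agent.R664.Ehr

universe u v

section defs

variable (R : Type u) [Monoid R] (A : Type v) [MulAction R A]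

/-- The congruence on the free `R`-act `Fin n × R` (with action `r • (i, s) = (i, r * s)`)
generated by a set `S` of pairs. -/
inductive ActCong {R : Type u} [Monoid R] {n : ℕ} (S : Set ((Fin n × R) × (Fin n × R))) :
    Fin n × R → Fin n × R → Prop
  | base {p q : Fin n × R} : (p, q) ∈ S → ActCong S p q
  | refl (p : Fin n × R) : ActCong S p p
  | symm {p q : Fin n × R} : ActCong S p q → ActCong S q p
  | trans {p q r : Fin n × R} : ActCong S p q → ActCong S q r → ActCong S p r
  | act (r : R) {p q : Fin n × R} : ActCong S p q → ActCong S (p.1, r * p.2) (q.1, r * q.2)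

/-- The `R`-act `A` is finitely presented: there is a surjective morphism of acts from a finitely
generated free act `Fin n × R` onto `A` whose kernel is a finitely generated congruence. -/
def IsFinPres : Prop :=
  ∃ (n : ℕ) (π : Fin n × R → A), Function.Surjective π ∧
    (∀ (r : R) (i : Fin n) (s : R), π (i, r * s) = r • π (i, s)) ∧
    ∃ S : Set ((Fin n × R) × (Fin n × R)), S.Finite ∧ ∀ p q, π p = π q ↔ ActCong S p q

/-- The `R`-act `A` is coherent: every finitely generated subact of `A` is finitely presented. -/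
def IsCoherentAct : Prop :=
  ∀ N : SubMulAction R A, (∃ Y : Finset A, ∀ z, z ∈ N ↔ ∃ y ∈ Y, ∃ r : R, r • y = z) →
    IsFinPres R N

end defs

/-- A monoid `S` is weakly left coherent: the left `S`-act `S` is coherent. -/
def WeaklyLeftCoherent (S : Type u) [Monoid S] : Prop := IsCoherentAct S S

/-- A monoid `S` is weakly right coherent: the right `S`-act `S` is coherent. Right `S`-acts are
`Sᵐᵒᵖ`-acts, with `MulOpposite.op s • a = a * s` on `S`. -/
def WeaklyRightCoherent (S : Type u) [Monoid S] : Prop := IsCoherentAct Sᵐᵒᵖ S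

theorem coherent_of {R : Type u} [Monoid R] {A : Type v} [MulAction R A]
    (C1 : ∀ a : A, ∃ e : R, e • a = a ∧ ∀ u v : R, u • a = v • a → u * e = v * e)
    (C2 : ∀ a b : A, ∃ C : Finset A, (∀ c ∈ C, (∃ s : R, c = s • a) ∧ ∃ t : R, c = t • b) ∧
      ∀ s t : R, s • a = t • b → ∃ c ∈ C, ∃ w : R, s • a = w • c) :
    IsCoherentAct R A := by
  classical
  rintro N ⟨Y, hY⟩
  choose e he1 he2 using C1
  choose C hC1 hC2 using C2
  have hs : ∀ a b c, c ∈ C a b → ∃ s : R, c = s • a := fun a b c hc => (hC1 a b c hc).1
  have ht : ∀ a b c, c ∈ C a b → ∃ t : R, c = t • b := fun a b c hc => (hC1 a b c hc).2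
  choose! sf hsf using hs
  choose! tf htf using ht
  let y : Fin Y.card ≃ Y := Y.equivFin.symm
  let a : Fin Y.card → A := fun i => (y i : A)
  have haN : ∀ (i : Fin Y.card) (r : R), r • a i ∈ N := fun i r =>
    (hY _).2 ⟨a i, (y i).2, r, rfl⟩
  let π : Fin Y.card × R → N := fun p => ⟨p.2 • a p.1, haN p.1 p.2⟩
  have hπ : ∀ p q : Fin Y.card × R, π p = π q ↔ p.2 • a p.1 = q.2 • a q.1 := by
    intro p q
    simp only [π, Subtype.mk.injEq]
  let S : Set ((Fin Y.card × R) × (Fin Y.card × R)) :=
    Set.range (fun i : Fin Y.card => ((i, (1 : R)), (i, e (a i)))) ∪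
      ⋃ i : Fin Y.card, ⋃ j : Fin Y.card,
        (fun c => ((i, sf (a i) (a j) c), (j, tf (a i) (a j) c))) '' (C (a i) (a j) : Set A)
  refine ⟨Y.card, π, ?_, ?_, S, ?_, ?_⟩
  · rintro ⟨z, hz⟩
    obtain ⟨y0, hy0, r, rfl⟩ := (hY z).1 hz
    refine ⟨(y.symm ⟨y0, hy0⟩, r), ?_⟩
    simp [π, a]
  · intro r i s
    simp only [π, mul_smul]
    rfl
  · refine (Set.finite_range _).union ?_
    refine Set.finite_iUnion fun i => Set.finite_iUnion fun j => ?_
    exact (Finset.finite_toSet _).image _
  · intro p q
    constructor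
    · intro h
      rw [hπ] at h
      obtain ⟨i, r⟩ := p
      obtain ⟨j, s⟩ := q
      simp only at h
      have hb : ∀ (k : Fin Y.card) (w : R), ActCong S (k, w) (k, w * e (a k)) := by
        intro k w
        have h1 : ActCong S (k, (1 : R)) (k, e (a k)) :=
          ActCong.base (Or.inl ⟨k, rfl⟩)
        have h2 := ActCong.act w h1
        simpa using h2
      obtain ⟨c, hc, w, hw⟩ := hC2 (a i) (a j) r s h
      have hc1 := hsf _ _ _ hc
      have hc2 := htf _ _ _ hc
      have h3 : r * e (a i) = w * sf (a i) (a j) c * e (a i) := by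
        apply he2
        rw [mul_smul, ← hc1, hw]
      have h4 : s * e (a j) = w * tf (a i) (a j) c * e (a j) := by
        apply he2
        rw [mul_smul, ← hc2, ← hw, h]
      have h5 : ActCong S (i, w * sf (a i) (a j) c) (j, w * tf (a i) (a j) c) := by
        have h6 : ActCong S (i, sf (a i) (a j) c) (j, tf (a i) (a j) c) := by
          refine ActCong.base (Or.inr ?_)
          simp only [Set.mem_iUnion]
          exact ⟨i, j, c, hc, rfl⟩
        exact ActCong.act w h6
      have h7 := hb i r
      rw [h3] at h7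
      have h8 := hb j s
      rw [h4] at h8
      exact h7.trans ((hb i _).symm.trans (h5.trans ((hb j _).trans h8.symm)))
    · intro h
      rw [hπ]
      induction h with
      | base h =>
        rcases h with ⟨i, hi⟩ | h
        · simp only [Prod.mk.injEq] at hi
          obtain ⟨rfl, rfl⟩ := hi
          simp [he1]
        · simp only [Set.mem_iUnion] at h
          obtain ⟨i, j, c, hc, hi⟩ := h
          simp only [Prod.mk.injEq] at hi
          obtain ⟨rfl, rfl⟩ := hi
          simp only
          rw [← hsf _ _ _ hc, ← htf _ _ _ hc]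
      | refl p => rfl
      | symm _ ih => exact ih.symm
      | trans _ _ ih1 ih2 => exact ih1.trans ih2
      | act r _ ih => simp only [mul_smul, ih]

/-- **MP_9a323a_al, Q1 and Q2.** The free Ehresmann monoid on any set `X` is weakly right coherent
and weakly left coherent. -/
theorem result (X : Type u) : WeaklyRightCoherent (FE X) ∧ WeaklyLeftCoherent (FE X) := by
  classical
  constructor
  · refine coherent_of ?_ ?_
    · intro a
      refine ⟨MulOpposite.op (star a), ?_, ?_⟩
      · rw [op_smul_eq_mul]
        exact Ehresmann.mul_star_self a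
      · intro u v h
        obtain ⟨u, rfl⟩ := MulOpposite.op_surjective u
        obtain ⟨v, rfl⟩ := MulOpposite.op_surjective v
        rw [op_smul_eq_mul, op_smul_eq_mul] at h
        rw [← MulOpposite.op_mul, ← MulOpposite.op_mul, cancel_star a u v h]
    · intro a b
      obtain ⟨C, h1, h2⟩ := howson a b
      refine ⟨C, ?_, ?_⟩
      · intro c hc
        obtain ⟨⟨s, hs⟩, t, ht⟩ := h1 c hc
        exact ⟨⟨MulOpposite.op s, hs⟩, MulOpposite.op t, ht⟩
      · intro s t h
        obtain ⟨s, rfl⟩ := MulOpposite.op_surjective s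
        obtain ⟨t, rfl⟩ := MulOpposite.op_surjective t
        rw [op_smul_eq_mul, op_smul_eq_mul] at h
        obtain ⟨c, hc, w, hw⟩ := h2 s t h
        exact ⟨c, hc, MulOpposite.op w, hw⟩
  · refine coherent_of ?_ ?_
    · intro a
      refine ⟨rev (star (rev a)), ?_, ?_⟩
      · rw [smul_eq_mul]
        have h := congrArg rev (Ehresmann.mul_star_self (rev a))
        rwa [rev_mul, rev_rev] at h
      · intro u v h
        rw [smul_eq_mul, smul_eq_mul] at h
        have h1 : rev a * rev u = rev a * rev v := by rw [← rev_mul, ← rev_mul, h]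
        have h2 := congrArg rev (cancel_star _ _ _ h1)
        rwa [rev_mul, rev_mul, rev_rev, rev_rev] at h2
    · intro a b
      obtain ⟨C, h1, h2⟩ := howson (rev a) (rev b)
      refine ⟨C.image rev, ?_, ?_⟩
      · intro c hc
        obtain ⟨d, hd, rfl⟩ := Finset.mem_image.1 hc
        obtain ⟨⟨s, hs⟩, t, ht⟩ := h1 d hd
        refine ⟨⟨rev s, ?_⟩, rev t, ?_⟩
        · rw [hs, rev_mul, rev_rev, smul_eq_mul]
        · rw [ht, rev_mul, rev_rev, smul_eq_mul]
      · intro s t h
        rw [smul_eq_mul, smul_eq_mul] at h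
        obtain ⟨c, hc, w, hw⟩ := h2 (rev s) (rev t) (by rw [← rev_mul, ← rev_mul, h])
        refine ⟨rev c, Finset.mem_image_of_mem _ hc, rev w, ?_⟩
        have h3 := congrArg rev hw
        rw [rev_mul, rev_mul, rev_rev, rev_rev] at h3
        rw [smul_eq_mul, smul_eq_mul]
        exact h3

end Pool.Agent.Results.MP_9a323a_al.WeaklyCoherent
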